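import Pool.Agent.Helper74.BS.St

set_option autoImplicit false

/-! Project BS (helper74), MP_26f0da_lc: module MR2 (helper88): derivations with forests give runs
(adapted from Helper91/PT/M_G4.lean). -/

namespace Pool.Agent.Helper88.BS

open Pool.Agent.Helper73.DC Pool.Agent.Helper74.BS
open Finset
open scoped Classical

private theorem ev_stuck (lf cl : ℕ → ℕ) (rs : ℕ → ℕ → ℕ) (tn : ℕ → ℕ) (x v : ℕ) (f : Fo)
    (h : EvF lf cl rs tn x v f) : lf x = 0 → cl x = x → tn x = 0 → False := by
  induction h with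
  | leaf x r hl => intro h0 _ _; omega
  | tree x r f h0 ht hr ih => intro _ _ h3; exact ht h3
  | node x r1 r2 f1 f2 h0 ht h1 h2 ih1 ih2 =>
    intro h0' hcl htn
    exact ih1 (by rw [hcl]; exact h0') (by rw [hcl]; exact hcl) (by rw [hcl]; exact htn)

private theorem ev_leaf (lf cl : ℕ → ℕ) (rs : ℕ → ℕ → ℕ) (tn : ℕ → ℕ) (x v r : ℕ) (f : Fo)
    (h : EvF lf cl rs tn x v f) (hl : lf x = r + 1) : v = r ∧ f = Fo.nil := by
  cases h with
  | leaf _ _ hl' => exact ⟨by omega, rfl⟩
  | tree _ _ _ h0 _ _ => omega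
  | node _ _ _ _ _ h0 _ _ _ => omega

private theorem pops_end {C G : Type} (mv : C → G → C → List G → Prop) (F : C → Prop) (c c' : C)
    (β : List G) (f : Fo) (h : PopsF mv F c β c' f) : ¬ F c' := by
  induction h with
  | nil c hc => exact hc
  | cons c c1 c2 c3 Z γ β f g _ _ _ _ _ ih2 => exact ih2

private theorem pops_nil {C G : Type} (mv : C → G → C → List G → Prop) (F : C → Prop) (c c' : C)
    (f : Fo) (h : PopsF mv F c [] c' f) : c = c' ∧ f = Fo.nil := by
  cases h with
  | nil _ _ => exact ⟨rfl, rfl⟩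

private theorem accs_nil {C G : Type} (mv : C → G → C → List G → Prop) (F : C → Prop) (c : C)
    (f : Fo) (h : AccsF mv F c [] f) : F c := by
  cases h with
  | fin _ _ hF => exact hF

private theorem accs_one {C G : Type} (mv : C → G → C → List G → Prop) (F : C → Prop) (c : C) (Z : G)
    (f : Fo) (hc : ¬ F c) (h : AccsF mv F c [Z] f) :
    ∃ (c1 : C) (γ : List G) (f1 : Fo), mv c Z c1 γ ∧ AccsF mv F c1 γ f1 ∧ f = Fo.nd f1 Fo.nil := by
  cases h with
  | fin _ _ hF => exact absurd hF hc
  | down _ c1 _ γ _ f1 _ hm h1 => exact ⟨c1, γ, f1, hm, h1, rfl⟩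
  | next _ c1 c2 _ γ _ f1 g _ hm h1 h2 =>
    exact absurd (accs_nil mv F c2 g h2) (pops_end mv F c1 c2 γ f1 h1)

private theorem pops_one {C G : Type} (mv : C → G → C → List G → Prop) (F : C → Prop) (c c' : C) (Z : G)
    (f : Fo) (h : PopsF mv F c [Z] c' f) :
    ∃ (c1 : C) (γ : List G) (f1 : Fo), mv c Z c1 γ ∧ PopsF mv F c1 γ c' f1 ∧ f = Fo.nd f1 Fo.nil := by
  cases h with
  | cons _ c1 c2 _ _ γ _ f1 g _ hm h1 h2 =>
    obtain ⟨e1, e2⟩ := pops_nil mv F c2 c' g h2
    subst e1
    subst e2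
    exact ⟨c1, γ, f1, hm, h1, rfl⟩

theorem hMR2 (hG3 : StG3) : Pool.Agent.Helper74.BS.StMR2 := by
  intro α _ M T K num qn hD w x v f hEv
  have hac : T.lf w (T.ac w.length) = 1 := by
    obtain ⟨_, _, _, _, _, h7⟩ := hG3 M T K num qn hD w (fun _ => 0) (fun _ => Nat.zero_le _)
    exact h7
  have hacE : ∀ r g, EvF (T.lf w) (T.cl w) (T.rs w) (tnM T w) (T.ac w.length) r g →
      r = 0 ∧ g = Fo.nil := by
    intro r g h
    exact ev_leaf _ _ _ _ _ _ 0 _ h (by rw [hac])
  have htn : ∀ y, tnM T w y ≠ 0 → T.cl w y = T.ac w.length ∧ T.lf w y = 0 := by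
    intro y hy
    unfold tnM at hy
    by_contra hc
    rw [if_neg hc] at hy
    exact hy rfl
  have htn0 : ∀ y, T.cl w y = T.ac w.length → T.lf w y = 0 → tnM T w y ≠ 0 := by
    intro y h1 h2
    unfold tnM
    rw [if_pos ⟨h1, h2⟩]
    exact one_ne_zero
  induction hEv with
  | leaf x r hl =>
    intro q β p hβ hp hx
    obtain ⟨h1, h2, h4, h5, h6, _⟩ := hG3 M T K num qn hD w p hp
    have hlx : T.lf w (mnd M num w.length q β p) = r + 1 := by
      rw [← hl, hx]
    by_cases hacc : M.acc q
    · have e1 : r + 1 = 1 := hlx.symm.trans (h1 q β hβ hacc)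
      exact ⟨fun _ => AccsF.fin _ _ hacc, fun hne => absurd (by omega) hne⟩
    · match β, hβ, hx, hlx with
      | [], hβ, hx, hlx =>
        have e1 : r + 1 = qn q * (w.length + 2) ^ M.k + pcd w.length p + 2 := hlx.symm.trans (h2 q hacc)
        exact ⟨fun h0 => by omega, fun _ => ⟨q, p, by omega, hp, PopsF.nil _ hacc⟩⟩
      | [Z], _, hx, hlx =>
        exfalso
        rcases htr : M.tr q Z (fun j => symAt w (p j)) with _ | ⟨q', d, γ⟩
        · have : r + 1 = 0 := hlx.symm.trans (h5 q Z hacc htr).1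
          omega
        · have : r + 1 = 0 := hlx.symm.trans (h4 q Z q' d γ hacc htr).1
          omega
      | Z :: Y :: β', hβ, hx, hlx =>
        exfalso
        have : r + 1 = 0 := hlx.symm.trans (h6 q Z Y β' hβ hacc).1
        omega
  | tree x r f h0 ht hr ih =>
    intro q β p hβ hp hx
    obtain ⟨h1, h2, h4, h5, h6, _⟩ := hG3 M T K num qn hD w p hp
    obtain ⟨t1, _⟩ := htn x ht
    have hlx : T.lf w (mnd M num w.length q β p) = 0 := by
      rw [← h0, hx]
    by_cases hacc : M.acc q
    · exfalso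
      have e1 : 0 = 1 := hlx.symm.trans (h1 q β hβ hacc)
      omega
    · match β, hβ, hx, hlx with
      | [], _, hx, hlx =>
        exfalso
        have e1 : 0 = qn q * (w.length + 2) ^ M.k + pcd w.length p + 2 := hlx.symm.trans (h2 q hacc)
        omega
      | [Z], _, hx, hlx =>
        rcases htr : M.tr q Z (fun j => symAt w (p j)) with _ | ⟨q', d, γ⟩
        · exfalso
          have e2 : T.cl w x = x := by
            rw [hx]
            exact (h5 q Z hacc htr).2
          rw [e2] at t1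
          rw [t1, hac] at h0
          omega
        · have e3 : T.rs w x 0 = mnd M num w.length q' γ (nps w d p) := by
            rw [hx]
            exact (h4 q Z q' d γ hacc htr).2.2
          have hγ : γ.length ≤ K := hD.hKt q Z _ q' d γ htr
          have hnp : ∀ j, nps w d p j ≤ w.length + 1 := fun j => min_le_right _ _
          have hmv : mmv M w (q, p) Z (q', nps w d p) γ := ⟨d, htr, rfl⟩
          obtain ⟨j1, j2⟩ := ih q' γ (nps w d p) hγ hnp e3
          refine ⟨fun hv => AccsF.down _ _ _ _ _ _ hacc hmv (j1 hv), fun hv => ?_⟩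
          obtain ⟨q2, p2, k1, k2, k3⟩ := j2 hv
          have k4 := pops_end _ _ _ _ _ _ k3
          exact ⟨q2, p2, k1, k2, PopsF.cons _ _ _ _ _ _ _ _ _ hacc hmv k3 (PopsF.nil _ k4)⟩
      | Z :: Y :: β', hβ, hx, hlx =>
        exfalso
        have e2 : T.cl w x = mnd M num w.length q [Z] p := by
          rw [hx]
          exact (h6 q Z Y β' hβ hacc).2.1
        rw [e2] at t1
        rw [← t1] at hac
        rcases htr : M.tr q Z (fun j => symAt w (p j)) with _ | ⟨q', d, γ⟩
        · have := (h5 q Z hacc htr).1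
          omega
        · have := (h4 q Z q' d γ hacc htr).1
          omega
  | node x r1 r2 f1 f2 h0 ht hc hr ih1 ih2 =>
    intro q β p hβ hp hx
    obtain ⟨h1, h2, h4, h5, h6, _⟩ := hG3 M T K num qn hD w p hp
    have hlx : T.lf w (mnd M num w.length q β p) = 0 := by
      rw [← h0, hx]
    by_cases hacc : M.acc q
    · exfalso
      have e1 : 0 = 1 := hlx.symm.trans (h1 q β hβ hacc)
      omega
    · match β, hβ, hx, hlx with
      | [], _, hx, hlx =>
        exfalso
        have e1 : 0 = qn q * (w.length + 2) ^ M.k + pcd w.length p + 2 := hlx.symm.trans (h2 q hacc)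
        omega
      | [Z], _, hx, hlx =>
        exfalso
        rcases htr : M.tr q Z (fun j => symAt w (p j)) with _ | ⟨q', d, γ⟩
        · have e2 : T.cl w x = x := by
            rw [hx]
            exact (h5 q Z hacc htr).2
          have hfull := EvF.node x r1 r2 f1 f2 h0 ht hc hr
          exact ev_stuck _ _ _ _ _ _ _ hfull h0 e2 ht
        · have e2 : T.cl w x = T.ac w.length := by
            rw [hx]
            exact (h4 q Z q' d γ hacc htr).2.1
          exact htn0 x e2 h0 ht
      | Z :: Y :: β', hβ, hx, hlx =>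
        have e2 : T.cl w x = mnd M num w.length q [Z] p := by
          rw [hx]
          exact (h6 q Z Y β' hβ hacc).2.1
        have e4 : T.rs w x 0 = T.ac w.length := by
          rw [hx]
          exact (h6 q Z Y β' hβ hacc).2.2.1
        have e5 : ∀ (q1 : M.Q) (p1 : Fin M.k → ℕ), (∀ j, p1 j ≤ w.length + 1) →
            T.rs w x (qn q1 * (w.length + 2) ^ M.k + pcd w.length p1 + 1) =
              mnd M num w.length q1 (Y :: β') p1 := by
          rw [hx]
          exact (h6 q Z Y β' hβ hacc).2.2.2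
        obtain ⟨i1, i2⟩ := ih1 q [Z] p (by simpa using hD.hK) hp e2
        by_cases hr1 : r1 = 0
        · rw [hr1, e4] at hr
          obtain ⟨hr2, hf2⟩ := hacE _ _ hr
          obtain ⟨c1, γ, g, m1, m2, m3⟩ := accs_one (mmv M w) (fun c => M.acc c.1) (q, p) Z f1 hacc (i1 hr1)
          rw [hf2, m3]
          exact ⟨fun _ => AccsF.down _ _ _ _ _ _ hacc m1 m2, fun hne => absurd hr2 hne⟩
        · obtain ⟨q1, p1, k1, k2, k3⟩ := i2 hr1
          obtain ⟨c1, γ, g, m1, m2, m3⟩ := pops_one _ _ _ _ _ _ k3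
          have hβ2 : (Y :: β').length ≤ K := by
            simp only [List.length_cons] at hβ ⊢
            omega
          obtain ⟨l1, l2⟩ := ih2 q1 (Y :: β') p1 hβ2 k2 (by rw [k1]; exact e5 q1 p1 k2)
          rw [m3]
          refine ⟨fun hv => AccsF.next _ _ _ _ _ _ _ _ hacc m1 m2 (l1 hv), fun hv => ?_⟩
          obtain ⟨q2, p2, a1, a2, a3⟩ := l2 hv
          exact ⟨q2, p2, a1, a2, PopsF.cons _ _ _ _ _ _ _ _ _ hacc m1 m2 a3⟩

end Pool.Agent.Helper88.BS
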